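import Pool.Agent.TH132.A.DMain

/-!
# MP_5f0950_ag: the standard conjecture D for the products of almost all members with all varieties of small rank

Let `Y` be a smooth projective variety over an algebraic closure of a finite field whose cohomology is
spanned by algebraic classes, for example a projective space. Let `F i`, for `i` in a finite set, be
families of varieties `X_s` over `Y`, whose cohomology is the sum of the pull-back of the cohomology of
`Y` and of a subspace `P_s` of the cohomology of degree `dim X_s`, with large symplectic or
orthogonal monodromy. Let `E` be a number field in the complex numbers, and let `r` be smaller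
than the degrees of the real Weil polynomials of the members.

Then for all `ε > 0` and all large `m`, for all but at most `ε * ∏ i, #S_i(m)` of the tuples `s` in the
product of the sets `S_i(m)` of the parameters with coordinates in the field with `p ^ m` elements
(for which the eigenvectors in `P_s` with a forced Frobenius eigenvalue `± q ^ (n / 2)`,
`n = dim X_s`, if there are any, are algebraic), for **all products** `X` of copies of `Y` and of the
members `X_{i, s_i}` and for **all** varieties `U` in the class for which the eigenvalues of the Frobenius
endomorphism on the cohomology of `U` have rank at most `r` over `E`: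

homological and numerical equivalence coincide for the cycles of codimension `c` on `X × U` if and
only if they coincide for the cycles of codimension `c - i` on `U`, for all `i ≤ c` such that not all
cycles of codimension `i` on `X` are homologically trivial (in reality: for all `i ≤ dim X`).

So the conjecture D for `X × U` is equivalent to the conjecture D for `U`, in each range of
codimensions. For instance, by the theorem of Matsusaka on divisors the conjecture D holds, in all
codimensions, for the products `X × U` with all surfaces `U` of small Frobenius rank, and for any `U` the
conjecture D for cycles of codimension two on `X × U` is equivalent to that for `U`. (The conjecture D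
is not known to be stable under products; neither the Tate conjecture, nor the semisimplicity of
Frobenius, nor the conjectures A, B are assumed for `U`.)
-/

set_option autoImplicit false

open CategoryTheory AlgebraicGeometry Polynomial

universe u v

namespace Pool.Agent.Results.MP_5f0950_ag.AlmostAllTimesVarieties

open Pool.Agent.H914 Pool.Agent.W534 Pool.Agent.W458.MF VarClass Obj WeilCohomology
  Pool.Agent.H281R3.HT Pool.Agent.W458.RK Pool.Agent.TH132.A

/-- **The conjecture D for the products of almost all members with all varieties of small Frobenius
rank.** -/
theorem result {k : Type u} [Field k] {𝒱 : VarClass k} {ops : CycleOps 𝒱}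
    (W : WeilCohomology.{u, v} ops) [IsAlgClosed W.K] (σ : W.K →+* ℂ) (p : ℕ)
    (hp : p.Prime) (Φ : FrobSystem W p) (Y : 𝒱.Obj) (hY : ∀ x : W.H Y, x ∈ algSpan W Y)
    {I : Type} [Fintype I] (F : I → Family W Y) (e : I → ℕ)
    (hF : ∀ i, Pol.HasLargeMonodromy (F i) Φ (e i)) (E : Subfield ℂ) [NumberField E] (r : ℕ)
    (hr : ∀ i m (s : (F i).S m), r < ((F i).member m s).pol.natDegree) (ε : ℝ) (hε : 0 < ε) :
    ∃ m₀ : ℕ, ∀ m ≥ m₀, ((badTuples F m (fun i P => e i ≠ 0 → ForcedTate p P m)
      (HomEqNumTimes Φ σ E r)).ncard : ℝ) ≤ ε * ∏ i, (Nat.card ((F i).S m) : ℝ) :=
  final_d_times W σ p hp Φ Y hY F e hF E r hr ε hε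

end Pool.Agent.Results.MP_5f0950_ag.AlmostAllTimesVarieties
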