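import Pool.Agent.TH127.Rank
import Pool.Agent.W534.FamD

/-!
# Homological and numerical equivalence on the product with a hyperplane section

Let `X` be a smooth proper variety of dimension `n` over a field, `W` a Weil cohomology theory, `D` a
divisor on `X` with hard Lefschetz, and `i : Y ⟶ X` a morphism from a variety of dimension `n - 1`
with `i_* [Y] = D` in cohomology which satisfies the weak Lefschetz theorem (a smooth hyperplane
section). The following are equivalent:

1. the conjecture D for cycles of codimension `n` on `X × Y`;
2. the dimension of the space spanned by the classes of the cycles of codimension `n` on `X × Y` is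
   the rank of the group of these cycles modulo numerical equivalence;
3. the conjecture B for `X` and the conjecture D for cycles of codimension `n - 1` on `X × Y`;
4. the conjecture D for `X × Y` in all codimensions.

They imply the conjecture B for `Y`, the conjecture D for `X` and for `Y` in all codimensions, and
that a numerically trivial correspondence on `X × X` (on `Y × Y`) acts as zero on the cohomology of
`X` (of `Y`) outside the primitive classes of the middle degree (outside the vanishing classes).
-/

open Pool.Agent.H914 Pool.Agent.H447 Pool.Agent.W534 Pool.Agent.TH127 Pool.Agent.H914.VarClass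
  Pool.Agent.H914.VarClass.Obj

universe u v

namespace Pool.Agent.Results.MP_5f0950_ag.HyperplaneProduct

/-- **The conjecture D for the product of a variety with a hyperplane section is its statement in one
codimension, and an equality of two integers; it implies the conjecture B for both factors.** -/
theorem result {k : Type u} [Field k] {𝒱 : VarClass k} {ops : CycleOps 𝒱}
    (W : WeilCohomology.{u, v} ops) (X Y : 𝒱.Obj) (i : Y ⟶ X) (D : X.Cycles)
    (hdim : X.dim = Y.dim + 1) (hD : X.IsCyc 1 D)
    (hY : W.cl X (ops.push i Y.V.fundCycle) = W.cl X D) (hHL : HardLefschetz W X D)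
    (hWL : WeakLefschetz W i) :
    List.TFAE [
      HomEqNumIn W (X.prod Y) X.dim,
      cycleRank W (X.prod Y) X.dim = numRank ops (X.prod Y) X.dim,
      LefschetzB W X D ∧ HomEqNumIn W (X.prod Y) Y.dim,
      ∀ q, HomEqNumIn W (X.prod Y) q] ∧
    (HomEqNumIn W (X.prod Y) X.dim →
      LefschetzB W X D ∧ LefschetzB W Y (ops.pull i D) ∧
      (∀ q, HomEqNumIn W X q) ∧ (∀ q, HomEqNumIn W Y q) ∧
      ∀ q, NumTrivialOnSquares W i D q) := by
  have h0 := d_hyperplane hdim hD hY hHL hWL
  constructor
  · tfae_have 1 ↔ 2 := homEqNumIn_iff_rank (by rw [dim_prod]; omega)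
    tfae_have 1 ↔ 3 := h0.out 0 2
    tfae_have 1 ↔ 4 := h0.out 0 1
    tfae_finish
  · intro h
    have hB := lefschetzB_of_homEqNumXY hdim hD hY hHL hWL h
    exact ⟨hB, lefschetzB_section hdim hD hY hHL hWL hB,
      fun q => (homEqNum_factors hdim hD hY hHL hWL h q).1,
      fun q => (homEqNum_factors hdim hD hY hHL hWL h q).2,
      numTrivialOnSquares hdim hD hY hHL hWL h⟩

end Pool.Agent.Results.MP_5f0950_ag.HyperplaneProduct
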