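import Pool.Agent.TH776.DN.Main

/-!
# Homological and numerical equivalence on powers of abelian varieties over finite fields and relations
# between the constant terms of the factors of the Frobenius polynomial over the field of coefficients

Clozel proved (1999) that for an abelian variety `A` over a finite field homological and numerical
equivalence coincide for `ℓ`-adic cohomology if the complex conjugation is in a decomposition group at
`ℓ` of the Galois closure of the field generated by the Frobenius eigenvalues. Here the same is shown
under a weaker condition, which can be read off from the characteristic polynomial of the Frobenius
over `ℚ_ℓ`, for all powers of `A`, and for any field of coefficients `k` of characteristic zero instead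
of `ℚ_ℓ` (for instance for crystalline cohomology).

Let `V` be the first cohomology of `A` with coefficients `k`, with the Frobenius `F` (which is
semisimple) for the field with `q` elements, and the form `ω` given by a polarization,
`ω (F u, F v) = q ω (u, v)`. Let `P` be the characteristic polynomial of `F ^ n` for some `n > 0`
(so that the base field may be replaced by a finite extension). The condition is
(`OnlyTrivialRelationsOver`): multiplicative relations, up to roots of unity, between `q ^ n` and
the products of the roots of the irreducible factors of `P` over `k`, that is the constant terms of
these factors, are consequences of the relations between the constant terms of the factors `p` and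
`p*`, where the roots of `p*` are the numbers `q ^ n / α`, `α` a root of `p`.

The cohomology classes in the tensor powers of `V` are multilinear forms. We consider any system of
spaces `Z ι` of such forms which has some properties of the spaces spanned by classes of algebraic
cycles (`IsAlgebraicSystem`): they are Tate classes over finite extensions; classes of degree zero and
all Tate classes in `V ⊗ V` are algebraic (theorem of Tate for `A × A`); tensor products, permutations
of the factors, pull-backs along endomorphisms commuting with a power of the Frobenius (Tate) and
contractions with the form `ω` of algebraic classes are algebraic.

Theorem: if a class `φ` in `Z ι` is orthogonal to all classes in `Z ι` for the intersection form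
`pairing` then `φ = 0`.

So homological and numerical equivalence coincide on all powers of `A` (the motives of the powers are
sums of twists of direct summands of tensor powers of `V`), and also after extension of the
coefficients of the cycles to `k`. The same is true for the motives generated by the transcendental
cohomology of a K3 surface over a finite field, as the Tate conjecture is known for the square of the
surface (Ito, Ito and Koshikawa), and for any polarized `V` for which the Tate conjecture holds for
`V ⊗ V`.

Examples. Let `A` be isogenous to a product of powers of simple abelian varieties with Weil numbers
`π i`, `K i = ℚ(π i)`, with maximal real subfields `K i⁺`. The irreducible factors of `P` over `ℚ_ℓ`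
correspond to the places above `ℓ` of the fields `K i`, and `p* = p` if the place is not split over
`K i⁺`.
(1) If no place of the fields `K i` above `ℓ` is split over `K i⁺`, there is no condition. Clozel
asks that complex conjugation is in the decomposition group of some place of the Galois closure of the
compositum of the `K i`, which implies this.
(2) If the group of multiplicative relations between the Frobenius eigenvalues of `A`, modulo the
relations `α (q / α) = q`, has rank one (for instance if `A` is simple of prime dimension
and not supersingular, or simple with few exceptional slopes as in `MP_950c68_ag.FewSlopesTateRing`,
and there are exotic Tate classes) it defines an imaginary quadratic field, and the condition holds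
for all `ℓ` that do not split in this field, whatever the places of `K` above `ℓ` are.
(3) If `A` is simple and `K` is an abelian extension of `ℚ` in which `ℓ` is unramified, the condition
holds if `χ(ℓ) ≠ 1` for all odd characters `χ` of `Gal(K / ℚ)` that are orthogonal to the slope
function of `π`.

Idea: extend the coefficients to an algebraic closure `Ω` of `k`. The space `Z ι ⊗ Ω` is a sum of
components given by families of eigenvalues `(α_i)`, because of the endomorphisms commuting with the
Frobenius. Let `S` be the set of the families that occur. Numerical equivalence is trivial if and
only if `S` is stable under `(α_i) ↦ (q / α_i)`. Now `S` is stable under concatenation, under the
omission of pairs `α, q / α` (contraction) and under the automorphisms of `Ω` over `k`. The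
concatenation of all conjugates over `k` of a family `(α_i)` has multiplicities which are constant
on conjugacy classes; by the hypothesis it consists, when taken twice, of pairs `α, q / α`. So
if we omit one copy of `(α_i)` from it and cancel pairs we get `(q / α_i)`, which is in `S`.
-/

namespace Pool.Agent.Results.MP_5f0950_ag.RelationsOverCoefficients

open Module Pool.Agent.TH776.DN

/-- Homological and numerical equivalence coincide on the tensor powers of a polarized Frobenius
module `V` if the constant terms of the irreducible factors over `k` of the characteristic polynomial
of some power of the Frobenius satisfy only trivial multiplicative relations. -/
theorem result {k V : Type} [Field k] [CharZero k] [AddCommGroup V] [Module k V]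
    [FiniteDimensional k V] (F : V →ₗ[k] V) (hF : Module.End.IsSemisimple F) (q : k) (hq : q ≠ 0)
    (ω : V →ₗ[k] V →ₗ[k] k) (hω : ∀ u v, ω (F u) (F v) = q * ω u v)
    -- dual bases for the form `ω`
    {J : Type} [Fintype J] [DecidableEq J] (e e' : Basis J k V)
    (hdual : ∀ i j, ω (e i) (e' j) = if i = j then 1 else 0)
    -- the algebraic classes
    (Z : (ι : Type) → Submodule k (Form k V ι)) (hZ : IsAlgebraicSystem F q e e' Z)
    -- the condition on the characteristic polynomial
    (n : ℕ) (hn : 0 < n)
    (hrel : OnlyTrivialRelationsOver k (q ^ n) (LinearMap.charpoly (F ^ n)))
    -- numerically trivial classes
    {ι : Type} [Fintype ι] [DecidableEq ι] (φ : Form k V ι) (hφ : φ ∈ Z ι)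
    (hnum : ∀ ψ ∈ Z ι, pairing e e' φ ψ = 0) : φ = 0 :=
  eq_zero_of_orthogonal hF hq hω hdual hZ hn hrel hφ hnum

end Pool.Agent.Results.MP_5f0950_ag.RelationsOverCoefficients
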