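import Pool.Agent.TH127.IrrTop

/-!
# Homological and numerical equivalence on products of surfaces with simple Frobenius eigenvalues

Let `W` be a Weil cohomology theory with algebraically closed coefficient field `K` and `S` a
conjugation of `W`: a semilinear endomorphism fixing the classes of cycles (for instance the `ℓ`-adic
theory over an algebraic closure `k` of a finite field, with coefficients extended to an algebraic
closure of the field of `ℓ`-adic numbers, and an automorphism of the latter over the field of `ℓ`-adic
numbers). Let `T` be a set of varieties `P` with the following properties.

* `P` satisfies the conjecture D, and the conjecture B for some divisor with hard Lefschetz (this is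
  known for all surfaces).
* There is an endomorphism `F` of `P` (the Frobenius endomorphism) which multiplies the class of the
  divisor by `q`, acts semisimply, and whose eigenvalues `α` on `H^i(P)` satisfy `τ(α) α = q ^ i`,
  where `τ` is the endomorphism of `K` given by `S`. (For eigenvalues `α` which are Weil numbers this
  means that `τ` is the complex conjugation on the CM field generated by them; if `ℓ` is in a
  certain set of primes of positive density there is such a conjugation.)
* On the transcendental cohomology, the orthogonal complement of the algebraic classes, any nonzero
  eigenvector of `F^*` is mapped to any other eigenvector with the same eigenvalue by a combination of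
  algebraic correspondences. This is no condition on simple eigenvalues, and on `H^1` and `H^3` of a
  surface it is a theorem of Tate.

Then the conjectures D and B hold for all varieties which are dominated by a product of members of
`T`, or whose motive is a direct summand of a direct sum of Tate twists of motives of such products.
The Tate conjecture is not assumed, neither for `P` nor for `P × P`.
-/

open Pool.Agent.H914 Pool.Agent.H914.VarClass Pool.Agent.W550.B Pool.Agent.H281R3.HT
  Pool.Agent.TH127

universe u v

namespace Pool.Agent.Results.MP_5f0950_ag.SimpleFrobeniusProducts

/-- **The conjectures D and B for varieties generated by varieties whose Frobenius eigenspaces on the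
transcendental cohomology are irreducible.** -/
theorem result {k : Type u} [Field k] {𝒱 : VarClass k} {ops : CycleOps 𝒱}
    (W : WeilCohomology.{u, v} ops) [IsAlgClosed W.K] (S : Conjugation W) (T : Set 𝒱.Obj)
    (hT : ∀ P ∈ T, IsIrreducibleVariety W S.τ P) (Y : 𝒱.Obj) (hY : IsGenerated W T Y) :
    HomEqNum W Y ∧ ∀ D, Y.IsCyc 1 D → HardLefschetz W Y D → LefschetzB W Y D :=
  generated S hT hY

end Pool.Agent.Results.MP_5f0950_ag.SimpleFrobeniusProducts
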